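import Mathlib
import Pool.Agent.V11114.KLH5

set_option autoImplicit false

/-! Dimension-free comparison of KL, chi-squared and Hellinger for Gaussian mixtures. -/

namespace Pool.Agent.Results.MP_ba1a3e_pr.DimensionFree

open MeasureTheory Real Set Filter Topology
open scoped RealInnerProductSpace
open Pool.Agent.V11114.KLH

/-- The density of the Gaussian mixture `π * N(0, I_d)`. -/
noncomputable def mix {d : ℕ} (π' : Measure (EuclideanSpace ℝ (Fin d)))
    (x : EuclideanSpace ℝ (Fin d)) : ℝ :=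
  ∫ z, (2 * Real.pi) ^ (-(d : ℝ) / 2) * Real.exp (-(‖x - z‖ ^ 2 / 2)) ∂π'

/-- the sum measure on two copies -/
noncomputable def mu2 {d : ℕ} (P Q : Measure (E d)) : Measure (E d ⊕ E d) :=
  P.map Sum.inl + Q.map Sum.inr

variable {d : ℕ}

theorem mix_eq {M : ℝ} (P : Measure (E d)) [IsProbabilityMeasure P]
    (hP : P (Metric.closedBall 0 M)ᶜ = 0) (x : E d) : mix P x = phi d x * D M P x := by
  unfold mix D Y phi
  rw [← integral_const_mul]
  have hae : ∀ᵐ z ∂P, z ∈ Metric.closedBall (0 : E d) M := by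
    rw [ae_iff]
    exact hP
  refine integral_congr_ae ?_
  filter_upwards [hae] with z hz
  have hz' : ‖z‖ ≤ M := by simpa using hz
  have htr : tr M z = z := by unfold tr; rw [if_pos hz']
  rw [htr, one_mul, mul_assoc, ← exp_add, norm_sub_sq_real]
  congr 2
  ring

theorem dat2 {M : ℝ} (hM : 0 ≤ M) (P Q : Measure (E d)) [IsProbabilityMeasure P]
    [IsProbabilityMeasure Q] :
    Dat (mu2 P Q) (Sum.elim (fun _ => 1) (fun _ => -1)) (Sum.elim (tr M) (tr M)) M where
  hs := measurable_const.sumElim measurable_const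
  hs1 := fun ω => by cases ω <;> simp
  hZ := (tr_meas M).sumElim (tr_meas M)
  hZM := fun ω => by cases ω <;> exact tr_le hM _
  fin := by
    haveI := Measure.isProbabilityMeasure_map (μ := P) (f := (Sum.inl : E d → E d ⊕ E d))
      measurable_inl.aemeasurable
    haveI := Measure.isProbabilityMeasure_map (μ := Q) (f := (Sum.inr : E d → E d ⊕ E d))
      measurable_inr.aemeasurable
    unfold mu2
    infer_instance

theorem mu2_univ (P Q : Measure (E d)) [IsProbabilityMeasure P] [IsProbabilityMeasure Q] :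
    (mu2 P Q).real univ = 2 := by
  haveI h1 := Measure.isProbabilityMeasure_map (μ := P) (f := (Sum.inl : E d → E d ⊕ E d))
    measurable_inl.aemeasurable
  haveI h2 := Measure.isProbabilityMeasure_map (μ := Q) (f := (Sum.inr : E d → E d ⊕ E d))
    measurable_inr.aemeasurable
  unfold mu2
  rw [Measure.real, Measure.add_apply, measure_univ, measure_univ]
  norm_num

theorem Y2 {M : ℝ} (hM : 0 ≤ M) (P Q : Measure (E d)) [IsProbabilityMeasure P]
    [IsProbabilityMeasure Q] (x : E d) :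
    Y (mu2 P Q) (Sum.elim (fun _ => 1) (fun _ => -1)) (Sum.elim (tr M) (tr M)) 1 x =
      D M P x - D M Q x := by
  haveI h1 := Measure.isProbabilityMeasure_map (μ := P) (f := (Sum.inl : E d → E d ⊕ E d))
    measurable_inl.aemeasurable
  haveI h2 := Measure.isProbabilityMeasure_map (μ := Q) (f := (Sum.inr : E d → E d ⊕ E d))
    measurable_inr.aemeasurable
  have hd := dat2 hM P Q
  have hm : Measurable fun ω : E d ⊕ E d => (Sum.elim (fun _ => (1:ℝ)) (fun _ => -1) ω : ℝ) *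
      exp (1 * ⟪x, Sum.elim (tr M) (tr M) ω⟫ - 1 ^ 2 * ‖Sum.elim (tr M) (tr M) ω‖ ^ 2 / 2) :=
    (Y_meas_aux hd 1).comp
      (measurable_const.prodMk measurable_id : Measurable fun z : E d ⊕ E d => (x, z))
  have hb : ∀ ω : E d ⊕ E d, ‖(Sum.elim (fun _ => (1:ℝ)) (fun _ => -1) ω : ℝ) *
      exp (1 * ⟪x, Sum.elim (tr M) (tr M) ω⟫ - 1 ^ 2 * ‖Sum.elim (tr M) (tr M) ω‖ ^ 2 / 2)‖ ≤
      exp (|(1:ℝ)| * M * ‖x‖) := by
    intro ω
    rw [norm_mul, Real.norm_of_nonneg (exp_pos _).le, Real.norm_eq_abs]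
    calc _ ≤ 1 * exp (|(1:ℝ)| * M * ‖x‖) :=
          mul_le_mul (hd.hs1 ω) (exp_bd hd 1 x ω) (exp_pos _).le zero_le_one
      _ = _ := one_mul _
  unfold Y D Y mu2
  rw [integral_add_measure, integral_map measurable_inl.aemeasurable hm.aestronglyMeasurable,
    integral_map measurable_inr.aemeasurable hm.aestronglyMeasurable]
  · simp only [Sum.elim_inl, Sum.elim_inr, neg_one_mul, integral_neg, one_mul]
    rfl
  · exact Integrable.of_bound hm.aestronglyMeasurable _ (ae_of_all _ hb)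
  · exact Integrable.of_bound hm.aestronglyMeasurable _ (ae_of_all _ hb)

theorem D_pos {M : ℝ} (hM : 0 ≤ M) (Q : Measure (E d)) [IsProbabilityMeasure Q] (x : E d) :
    0 < D M Q x := by
  obtain ⟨m, -, h⟩ := D_lower hM Q
  exact (exp_pos _).trans_le (h x)

theorem W_gr {M : ℝ} (hM : 0 ≤ M) (Q : Measure (E d)) [IsProbabilityMeasure Q] :
    Gr fun x => (D M Q x)⁻¹ := by
  obtain ⟨m, hm, h⟩ := D_lower hM Q
  refine ⟨(D_gr hM Q).1.inv₀ fun x => (D_pos hM Q x).ne', exp (M ^ 2 / 2), M, (exp_pos _).le, hM,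
    fun x => ?_⟩
  rw [abs_of_pos (inv_pos.2 (D_pos hM Q x)), ← exp_add]
  have h1 : (D M Q x)⁻¹ ≤ (exp (⟪x, m⟫ - M ^ 2 / 2))⁻¹ := inv_anti₀ (exp_pos _) (h x)
  rw [← exp_neg] at h1
  refine h1.trans (exp_le_exp.2 ?_)
  have h2 : -⟪x, m⟫ ≤ ‖x‖ * ‖m‖ := (neg_le_abs _).trans (abs_real_inner_le_norm x m)
  have h3 : ‖x‖ * ‖m‖ ≤ ‖x‖ * M := mul_le_mul_of_nonneg_left hm (norm_nonneg _)
  linarith

theorem exp_inner_gr (w : E d) (c : ℝ) : Gr fun x => exp (c + ⟪x, w⟫) := by
  refine ⟨by fun_prop, exp c, ‖w‖, (exp_pos _).le, norm_nonneg _, fun x => ?_⟩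
  rw [abs_of_pos (exp_pos _), ← exp_add]
  apply exp_le_exp.2
  have h2 : ⟪x, w⟫ ≤ ‖x‖ * ‖w‖ := (le_abs_self _).trans (abs_real_inner_le_norm x w)
  linarith

theorem W_pow {M : ℝ} (hM : 0 ≤ M) (Q : Measure (E d)) [IsProbabilityMeasure Q] (k : ℕ) :
    ∫ x, ((D M Q x)⁻¹) ^ k ∂(gam d) ≤ exp ((k * M ^ 2 + k ^ 2 * M ^ 2) / 2) := by
  obtain ⟨m, hm, h⟩ := D_lower hM Q
  have h0 : ∫ x, ((D M Q x)⁻¹) ^ k ∂(gam d) ≤
      ∫ x, exp (k * (M ^ 2 / 2) + ⟪x, (-(k : ℝ)) • m⟫) ∂(gam d) := by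
    refine Gr.mono ((W_gr hM Q).pow k) (exp_inner_gr _ _) fun x => ?_
    have h1 : (D M Q x)⁻¹ ≤ (exp (⟪x, m⟫ - M ^ 2 / 2))⁻¹ := inv_anti₀ (exp_pos _) (h x)
    rw [← exp_neg] at h1
    refine (pow_le_pow_left₀ (inv_pos.2 (D_pos hM Q x)).le h1 k).trans (le_of_eq ?_)
    rw [← exp_nat_mul, real_inner_smul_right]
    congr 1
    ring
  refine h0.trans ?_
  simp only [exp_add]
  rw [integral_const_mul, integral_exp_inner, ← exp_add]
  apply exp_le_exp.2
  rw [norm_smul, mul_pow, Real.norm_eq_abs, sq_abs]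
  have h2 : ‖m‖ ^ 2 ≤ M ^ 2 := pow_le_pow_left₀ (norm_nonneg _) hm 2
  have h3 : (0:ℝ) ≤ (k:ℝ) ^ 2 := by positivity
  nlinarith [mul_le_mul_of_nonneg_left h2 h3]

/-- constant `B` -/
noncomputable def BB (M : ℝ) : ℝ := 4 * exp (3 ^ 10 * M ^ 2)

theorem cmp {M : ℝ} (hM : 0 ≤ M) (P Q : Measure (E d)) [IsProbabilityMeasure P]
    [IsProbabilityMeasure Q] :
    Cmp (D M P) (D M Q) M
      (A (mu2 P Q) (Sum.elim (fun _ => 1) (fun _ => -1)) (Sum.elim (tr M) (tr M)) 1)
      (A (mu2 P Q) (Sum.elim (fun _ => 1) (fun _ => -1)) (Sum.elim (tr M) (tr M)) 3) (BB M) := by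
  have hd := dat2 hM P Q
  have hY := fun x => Y2 hM P Q x
  refine
    { gP := D_gr hM P
      gQ := D_gr hM Q
      gW := W_gr hM Q
      pP := D_pos hM P
      pQ := D_pos hM Q
      ha0 := ?_
      ha1 := A_nonneg hd (by norm_num)
      h4 := ?_
      hB := ?_
      hBpos := by unfold BB; positivity
      ha1u := ?_
      hP2 := D_sq hM P
      hQ2 := D_sq hM Q
      hW2 := ?_
      hW8 := ?_ }
  · have := Y_mul hd 1 1
    rw [one_mul] at this
    rw [← this]
    refine integral_congr_ae (ae_of_all _ fun x => ?_)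
    simp only
    rw [hY]
    ring
  · have := fourth hd
    refine le_trans (le_of_eq ?_) this
    refine integral_congr_ae (ae_of_all _ fun x => ?_)
    simp only
    rw [hY]
  · refine (A_three hd).trans (mul_le_mul_of_nonneg_left ?_ (pow_nonneg (A_nonneg hd zero_le_one) _))
    refine (A_le hd (by norm_num)).trans (le_of_eq ?_)
    rw [mu2_univ]
    unfold BB
    norm_num
  · refine (A_le hd (by norm_num)).trans (le_of_eq ?_)
    rw [mu2_univ]
    norm_num
  · refine (W_pow hM Q 2).trans (exp_le_exp.2 (le_of_eq ?_))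
    push_cast
    ring
  · refine (W_pow hM Q 8).trans (exp_le_exp.2 (le_of_eq ?_))
    push_cast
    ring

/-- The constant of the theorem. -/
noncomputable def CM (M : ℝ) : ℝ := 12 + 64 * exp (8 * M ^ 2) / eps M (BB M) ^ 2

theorem kl_gr {M : ℝ} (hM : 0 ≤ M) (P Q : Measure (E d)) [IsProbabilityMeasure P]
    [IsProbabilityMeasure Q] : Gr fun x => D M P x * Real.log (D M P x / D M Q x) := by
  have gP := D_gr hM P
  have gQ := D_gr hM Q
  have gW := W_gr hM Q
  have pP := D_pos hM P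
  have pQ := D_pos hM Q
  have hg : Gr fun x => D M P x ^ 2 * (D M Q x)⁻¹ + D M Q x := ((gP.pow 2).mul gW).add gQ
  refine Gr.of_le ?_ hg fun x => ?_
  · exact gP.1.mul ((gP.1.div gQ.1 fun x => (pQ x).ne').log fun x => (div_pos (pP x) (pQ x)).ne')
  · have h1 := pP x
    have h2 := pQ x
    rw [abs_mul, abs_of_pos h1, abs_of_pos (show 0 < D M P x ^ 2 * (D M Q x)⁻¹ + D M Q x by
      positivity)]
    have h3 : |Real.log (D M P x / D M Q x)| ≤ D M P x / D M Q x + D M Q x / D M P x := by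
      have hr : 0 < D M P x / D M Q x := div_pos h1 h2
      have hr' : 0 < D M Q x / D M P x := div_pos h2 h1
      rw [abs_le]
      constructor
      · have h5 := Real.log_le_sub_one_of_pos hr'
        have h6 : Real.log (D M P x / D M Q x) = -Real.log (D M Q x / D M P x) := by
          rw [← Real.log_inv, inv_div]
        rw [h6]
        linarith
      · have := Real.log_le_sub_one_of_pos hr
        linarith
    calc D M P x * |Real.log (D M P x / D M Q x)|
        ≤ D M P x * (D M P x / D M Q x + D M Q x / D M P x) := mul_le_mul_of_nonneg_left h3 h1.le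
      _ = _ := by field_simp

theorem kl_le {M : ℝ} (hM : 0 ≤ M) (P Q : Measure (E d)) [IsProbabilityMeasure P]
    [IsProbabilityMeasure Q] :
    ∫ x, D M P x * Real.log (D M P x / D M Q x) ∂(gam d) ≤
      ∫ x, (D M P x - D M Q x) ^ 2 * (D M Q x)⁻¹ ∂(gam d) := by
  have gP := D_gr hM P
  have gQ := D_gr hM Q
  have gW := W_gr hM Q
  have pP := D_pos hM P
  have pQ := D_pos hM Q
  have gX : Gr fun x => D M P x - D M Q x := gP.sub gQ
  have h1 : ∫ x, D M P x * Real.log (D M P x / D M Q x) ∂(gam d) ≤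
      ∫ x, ((D M P x - D M Q x) ^ 2 * (D M Q x)⁻¹ + (D M P x - D M Q x)) ∂(gam d) := by
    refine Gr.mono (kl_gr hM P Q) (((gX.pow 2).mul gW).add gX) fun x => ?_
    have h1 := pP x
    have h2 := pQ x
    have h3 := Real.log_le_sub_one_of_pos (div_pos h1 h2)
    calc D M P x * Real.log (D M P x / D M Q x) ≤ D M P x * (D M P x / D M Q x - 1) :=
          mul_le_mul_of_nonneg_left h3 h1.le
      _ = _ := by field_simp; ring
  rw [integral_add ((gX.pow 2).mul gW).integrable gX.integrable,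
    integral_sub gP.integrable gQ.integrable, D_int hM P, D_int hM Q] at h1
  linarith

/-- **Dimension-free comparison of KL, `χ²` and Hellinger for Gaussian mixtures.** -/
theorem result : ∀ M : ℝ, 0 < M → ∃ C : ℝ, 0 < C ∧ ∀ (d : ℕ)
    (P Q : Measure (EuclideanSpace ℝ (Fin d))), IsProbabilityMeasure P → IsProbabilityMeasure Q →
    P (Metric.closedBall 0 M)ᶜ = 0 → Q (Metric.closedBall 0 M)ᶜ = 0 →
    (Integrable (fun x => mix P x * Real.log (mix P x / mix Q x)) ∧
      Integrable (fun x => (mix P x - mix Q x) ^ 2 / mix Q x) ∧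
      Integrable (fun x => (√(mix P x) - √(mix Q x)) ^ 2)) ∧
    (∫ x, mix P x * Real.log (mix P x / mix Q x) ≤
      C * ∫ x, (√(mix P x) - √(mix Q x)) ^ 2) ∧
    ∫ x, (mix P x - mix Q x) ^ 2 / mix Q x ≤ C * ∫ x, (√(mix P x) - √(mix Q x)) ^ 2 := by
  intro M hM
  refine ⟨CM M, by unfold CM; positivity, ?_⟩
  intro d P Q hP' hQ' hP hQ
  have h1 : ∀ x, mix P x = phi d x * D M P x := mix_eq P hP
  have h2 : ∀ x, mix Q x = phi d x * D M Q x := mix_eq Q hQ
  have gP := D_gr hM.le P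
  have gQ := D_gr hM.le Q
  have gW := W_gr hM.le Q
  have pP := D_pos hM.le P
  have pQ := D_pos hM.le Q
  have gX : Gr fun x => D M P x - D M Q x := gP.sub gQ
  have gh : Gr fun x => √(D M P x) - √(D M Q x) := gP.sqrt.sub gQ.sqrt
  have e1 : ∀ x, mix P x * Real.log (mix P x / mix Q x) =
      phi d x * (D M P x * Real.log (D M P x / D M Q x)) := by
    intro x
    rw [h1, h2, mul_div_mul_left _ _ (phi_pos x).ne', mul_assoc]
  have e2 : ∀ x, (mix P x - mix Q x) ^ 2 / mix Q x =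
      phi d x * ((D M P x - D M Q x) ^ 2 * (D M Q x)⁻¹) := by
    intro x
    rw [h1, h2]
    have := (phi_pos x).ne'
    have := (pQ x).ne'
    field_simp
  have e3 : ∀ x, (√(mix P x) - √(mix Q x)) ^ 2 =
      phi d x * (√(D M P x) - √(D M Q x)) ^ 2 := by
    intro x
    rw [h1, h2, Real.sqrt_mul (phi_pos x).le, Real.sqrt_mul (phi_pos x).le, ← mul_sub, mul_pow,
      Real.sq_sqrt (phi_pos x).le]
  simp only [e1, e2, e3]
  rw [← integral_gam, ← integral_gam, ← integral_gam]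
  refine ⟨⟨integrable_gam.1 (kl_gr hM.le P Q).integrable,
    integrable_gam.1 ((gX.pow 2).mul gW).integrable, integrable_gam.1 (gh.pow 2).integrable⟩, ?_, ?_⟩
  · exact (kl_le hM.le P Q).trans (main_ineq (cmp hM.le P Q))
  · exact main_ineq (cmp hM.le P Q)

end Pool.Agent.Results.MP_ba1a3e_pr.DimensionFree
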